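import Pool.Agent.Work.MP_4035b7_pr.Main

/-!
# Eventual monotonicity of the mean passage time in Euclidean first passage percolation
-/

open MeasureTheory

namespace Pool.Agent.Results.MP_4035b7_pr.EventualMonotonicity

open Pool.Agent.Work.MP_4035b7_pr

/-- For every dimension `d + 1` and every exponent `α > 1`, all difference quotients of the mean
passage time `n ↦ E T_n` (intensity one) are bounded below by a positive constant for `n ≥ n₀`; the
derivative exists at almost every `n ≥ n₀`, and wherever it exists it is at least that constant. -/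
theorem result (d : ℕ) (α : ℝ) (hα : 1 < α) {Ω : Type*} [MeasurableSpace Ω] (P : Measure Ω)
    [IsProbabilityMeasure P] (Q : Ω → Set (E d)) (hQ : IsPoisson P Q) :
    (∀ n : ℝ, Integrable (fun ω => T α (Q ω) 0 (n • e1 d)) P) ∧
    ∃ n₀ c : ℝ, 0 < c ∧
      (∀ n m : ℝ, n₀ ≤ n → n < m →
        c * (m - n) ≤
          (∫ ω, T α (Q ω) 0 (m • e1 d) ∂P) - ∫ ω, T α (Q ω) 0 (n • e1 d) ∂P) ∧
      StrictMonoOn (fun n : ℝ => ∫ ω, T α (Q ω) 0 (n • e1 d) ∂P) (Set.Ici n₀) ∧
      (∀ᵐ n : ℝ, n₀ ≤ n → DifferentiableAt ℝ (fun n : ℝ => ∫ ω, T α (Q ω) 0 (n • e1 d) ∂P) n) ∧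
      ∀ n D : ℝ, n₀ ≤ n →
        HasDerivAt (fun n : ℝ => ∫ ω, T α (Q ω) 0 (n • e1 d) ∂P) D n → c ≤ D := by
  refine ⟨fun n => integrable_T hQ (by linarith) _ _, ?_⟩
  obtain ⟨c, n₀, hc, h⟩ := main_all hQ hα
  have hs : StrictMonoOn (fun n : ℝ => ∫ ω, T α (Q ω) 0 (n • e1 d) ∂P) (Set.Ici n₀) := by
    intro n hn m _ hnm
    have h1 := h n m hn hnm
    have h2 : 0 < c * (m - n) := mul_pos hc (by linarith)
    have h3 : mean P Q α n < mean P Q α m := by linarith
    exact h3
  refine ⟨n₀, c, hc, h, hs, ?_, ?_⟩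
  · have h1 := hs.monotoneOn.ae_differentiableWithinAt_of_mem
    have h2 : ∀ᵐ n : ℝ, n ≠ n₀ := by
      rw [ae_iff]
      simp
    filter_upwards [h1, h2] with n hn hn' hle
    exact (hn hle).differentiableAt (Ici_mem_nhds (lt_of_le_of_ne hle (Ne.symm hn')))
  · intro n D hn hD
    have h1 : Filter.Tendsto (slope (fun n : ℝ => ∫ ω, T α (Q ω) 0 (n • e1 d) ∂P) n)
        (nhdsWithin n (Set.Ioi n)) (nhds D) :=
      (hasDerivAt_iff_tendsto_slope.1 hD).mono_left
        (nhdsWithin_mono _ fun x (hx : n < x) => hx.ne')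
    refine ge_of_tendsto h1 ?_
    filter_upwards [self_mem_nhdsWithin] with m hm
    have hm' : n < m := hm
    rw [slope_def_field, le_div_iff₀ (by linarith)]
    exact h n m hn hm'

end Pool.Agent.Results.MP_4035b7_pr.EventualMonotonicity
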